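import Mathlib

/-! Descent of a `d`-th power of polynomials to the base field (project EQ, piece DE). -/

set_option autoImplicit false

namespace Pool.Agent.N946.EQ

open Polynomial

/-- monic polynomials over a field with the same positive power are equal -/
theorem monic_pow_inj {k : Type} [Field k] {h g : k[X]} (hh : h.Monic) (hg : g.Monic) {d : ℕ}
    (hd : 0 < d) (e : h ^ d = g ^ d) : h = g := by
  have h1 : h ∣ g := (IsIntegrallyClosed.pow_dvd_pow_iff hd.ne').1 (e ▸ dvd_rfl)
  have h2 : g ∣ h := (IsIntegrallyClosed.pow_dvd_pow_iff hd.ne').1 (e ▸ dvd_rfl)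
  exact eq_of_monic_of_associated hh hg (associated_of_dvd_dvd h1 h2)

theorem de (K k : Type) [Field K] [CharZero K] [Field k] [Algebra K k] [IsAlgClosed k]
    [Algebra.IsAlgebraic K k] (G : K[X]) (h : k[X]) (d : ℕ) (hG : G ≠ 0) (hd : 0 < d)
    (hh : h.Monic) (e : G.map (algebraMap K k) = C (algebraMap K k G.leadingCoeff) * h ^ d) :
    ∃ h' : K[X], h'.Monic ∧ G = C G.leadingCoeff * h' ^ d := by
  have : IsAlgClosure K k := ⟨inferInstance, inferInstance⟩
  have : Normal K k := IsAlgClosure.normal K k
  have : IsGalois K k := ⟨⟩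
  have hlc : G.leadingCoeff ≠ 0 := leadingCoeff_ne_zero.2 hG
  have hlk : (algebraMap K k G.leadingCoeff) ≠ 0 := by
    rwa [Ne, map_eq_zero]
  -- invariance
  have hinv : ∀ σ : k ≃ₐ[K] k, h.map (σ : k →+* k) = h := by
    intro σ
    have h1 : (G.map (algebraMap K k)).map (σ : k →+* k) = G.map (algebraMap K k) := by
      rw [Polynomial.map_map]
      congr 1
      ext x
      simp
    rw [e, Polynomial.map_mul, Polynomial.map_C, Polynomial.map_pow] at h1
    have h2 : (σ : k →+* k) (algebraMap K k G.leadingCoeff) = algebraMap K k G.leadingCoeff := by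
      simp
    rw [h2] at h1
    have h3 := mul_left_cancel₀ (C_ne_zero.2 hlk) h1
    exact monic_pow_inj (hh.map _) hh hd h3
  have hcoef : ∀ n, ∃ c : K, algebraMap K k c = h.coeff n := by
    intro n
    have : ∀ σ : k ≃ₐ[K] k, σ (h.coeff n) = h.coeff n := by
      intro σ
      have := congrArg (fun p => p.coeff n) (hinv σ)
      simpa [coeff_map] using this
    exact (InfiniteGalois.mem_range_algebraMap_iff_fixed (K := k) (k := K) (h.coeff n)).2 this
  have hl : h ∈ Polynomial.lifts (algebraMap K k) := by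
    rw [Polynomial.lifts_iff_coeff_lifts]
    intro n
    obtain ⟨c, hc⟩ := hcoef n
    exact ⟨c, hc⟩
  obtain ⟨h', hh', -, hm⟩ := Polynomial.lifts_and_degree_eq_and_monic hl hh
  refine ⟨h', hm, ?_⟩
  apply Polynomial.map_injective (algebraMap K k) (algebraMap K k).injective
  rw [e, Polynomial.map_mul, Polynomial.map_C, Polynomial.map_pow, hh']

end Pool.Agent.N946.EQ
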