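import Pool.Agent.N70.EQ.Stm
import Pool.Agent.N946.EQ.DEc

/-! Piece DE of the project EQ (helper70). -/

set_option autoImplicit false

namespace Pool.Agent.N946.EQ

theorem t_de : Pool.Agent.N70.EQ.St_de :=
  fun K k _ _ _ _ _ _ G h d hG hd hh e => de K k G h d hG hd hh e

end Pool.Agent.N946.EQ
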